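import Mathlib

set_option autoImplicit false

/-!
# Closed neighbourhoods in cubic graphs of large girth (given by three involutions)
-/

namespace Pool.Agent.H930

open Finset

section count
variable {V : Type} [Fintype V] [DecidableEq V] (s : Fin 3 → V → V)

/-- the number of pairs `(y, i)` with `y` and `s i y` in `H` -/
def F (H : Finset V) : ℕ := ∑ i : Fin 3, ∑ y ∈ H, if s i y ∈ H then 1 else 0

/-- the number of `i` with `s i x ∈ H` -/
def dg (H : Finset V) (x : V) : ℕ := ∑ i : Fin 3, if s i x ∈ H then 1 else 0

theorem F_le (hs : ∀ i x, s i (s i x) = x) (m : ℕ) : ∀ H : Finset V, H.card = m →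
    (∀ S ⊆ H, S.Nonempty → ∃ x ∈ S, dg s S x ≤ 1) → F s H ≤ 2 * m := by
  induction m with
  | zero =>
    intro H hH _
    rw [Finset.card_eq_zero] at hH
    subst hH
    simp [F]
  | succ m ih =>
    intro H hH hd
    have hne : H.Nonempty := by
      rw [← Finset.card_pos]; omega
    obtain ⟨x, hx, hx1⟩ := hd H (Finset.Subset.refl _) hne
    have h1 := ih (H.erase x) (by rw [Finset.card_erase_of_mem hx]; omega)
      (fun S hS hSn => hd S (hS.trans (Finset.erase_subset _ _)) hSn)
    have h2 : F s H ≤ F s (H.erase x) + dg s H x + dg s H x := by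
      unfold F dg
      rw [← Finset.sum_add_distrib, ← Finset.sum_add_distrib]
      refine Finset.sum_le_sum fun i _ => ?_
      rw [← Finset.insert_erase hx, Finset.sum_insert (Finset.notMem_erase x H),
        Finset.insert_erase hx]
      have h3 : ∑ y ∈ H.erase x, (if s i y ∈ H then 1 else 0) ≤
          ∑ y ∈ H.erase x, (if s i y ∈ H.erase x then 1 else 0) +
            ∑ y ∈ H.erase x, (if y = s i x then 1 else 0) := by
        rw [← Finset.sum_add_distrib]
        refine Finset.sum_le_sum fun y _ => ?_
        by_cases h4 : s i y = x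
        · have : y = s i x := by rw [← h4, hs]
          rw [if_pos this]
          split_ifs <;> omega
        · by_cases h5 : s i y ∈ H
          · rw [if_pos h5, if_pos (Finset.mem_erase.2 ⟨h4, h5⟩)]
            omega
          · rw [if_neg h5]
            omega
      have h4 : ∑ y ∈ H.erase x, (if y = s i x then 1 else 0) ≤ if s i x ∈ H then 1 else 0 := by
        rw [Finset.sum_ite_eq']
        by_cases h5 : s i x ∈ H.erase x
        · rw [if_pos h5, if_pos (Finset.mem_of_mem_erase h5)]
        · rw [if_neg h5]
          exact Nat.zero_le _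
      omega
    omega

/-- if the complement of the closed neighbourhood of `D` is `1`-degenerate, then `|V| ≤ 10 |D|` -/
theorem count (hs : ∀ i x, s i (s i x) = x) (D : Finset V)
    (hd : ∀ S : Finset V, (∀ x ∈ S, x ∉ D ∧ ∀ i, s i x ∉ D) → S.Nonempty →
      ∃ x ∈ S, dg s S x ≤ 1) : Fintype.card V ≤ 10 * D.card := by
  classical
  set H : Finset V := univ.filter (fun x => x ∉ D ∧ ∀ i, s i x ∉ D) with hH
  set N : Finset V := univ.filter (fun x => x ∉ D ∧ ∃ i, s i x ∈ D) with hN
  have hF := F_le s hs H.card H rfl (fun S hS hSn => hd S (fun x hx => by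
    have := hS hx
    rw [hH, Finset.mem_filter] at this
    exact this.2) hSn)
  -- `|V| = |D| + |N| + |H|`
  have hV : Fintype.card V ≤ D.card + N.card + H.card := by
    rw [← Finset.card_univ]
    refine (Finset.card_le_card (t := (D ∪ N) ∪ H) ?_).trans
      ((Finset.card_union_le _ _).trans (Nat.add_le_add_right (Finset.card_union_le _ _) _))
    intro x _
    rw [Finset.mem_union, Finset.mem_union, hN, hH, Finset.mem_filter, Finset.mem_filter]
    by_cases h1 : x ∈ D
    · exact Or.inl (Or.inl h1)
    · by_cases h2 : ∃ i, s i x ∈ D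
      · exact Or.inl (Or.inr ⟨mem_univ _, h1, h2⟩)
      · push Not at h2
        exact Or.inr ⟨mem_univ _, h1, h2⟩
  -- `|N| ≤ 3 |D|`
  have hN3 : N.card ≤ 3 * D.card := by
    have h1 : N ⊆ (univ ×ˢ D : Finset (Fin 3 × V)).image (fun p => s p.1 p.2) := by
      intro x hx
      rw [hN, Finset.mem_filter] at hx
      obtain ⟨-, -, i, hi⟩ := hx
      rw [Finset.mem_image]
      exact ⟨(i, s i x), Finset.mem_product.2 ⟨mem_univ _, hi⟩, hs i x⟩
    refine (Finset.card_le_card h1).trans (Finset.card_image_le.trans ?_)
    rw [Finset.card_product, Finset.card_univ, Fintype.card_fin]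
  -- lower bound for `F`
  have hlow : 3 * H.card ≤ F s H + 2 * N.card := by
    have h1 : ∀ i : Fin 3, H.card ≤ (∑ y ∈ H, if s i y ∈ H then 1 else 0) +
        ∑ z ∈ N, (if s i z ∈ H then 1 else 0) := by
      intro i
      have h2 : ∑ y ∈ H, (if s i y ∈ N then 1 else 0) ≤ ∑ z ∈ N, (if s i z ∈ H then 1 else 0) := by
        rw [← Finset.card_filter, ← Finset.card_filter]
        refine Finset.card_le_card_of_injOn (fun y => s i y) ?_ ?_
        · intro y hy
          have hy' := Finset.mem_filter.1 hy
          refine Finset.mem_coe.2 (Finset.mem_filter.2 ⟨hy'.2, ?_⟩)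
          simp only [hs]
          exact hy'.1
        · intro a _ b _ hab
          have := congrArg (s i) hab
          simpa only [hs] using this
      have h3 : H.card ≤ (∑ y ∈ H, if s i y ∈ H then 1 else 0) +
          ∑ y ∈ H, (if s i y ∈ N then 1 else 0) := by
        rw [← Finset.sum_add_distrib, Finset.card_eq_sum_ones]
        refine Finset.sum_le_sum fun y hy => ?_
        have hy' := (Finset.mem_filter.1 (hH ▸ hy)).2
        by_cases h4 : ∃ j, s j (s i y) ∈ D
        · have : s i y ∈ N := by
            rw [hN, Finset.mem_filter]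
            exact ⟨mem_univ _, hy'.2 i, h4⟩
          rw [if_pos this]
          omega
        · push Not at h4
          have : s i y ∈ H := by
            rw [hH, Finset.mem_filter]
            exact ⟨mem_univ _, hy'.2 i, h4⟩
          rw [if_pos this]
          omega
      omega
    have h5 : ∑ i : Fin 3, ∑ z ∈ N, (if s i z ∈ H then 1 else 0) ≤ 2 * N.card := by
      rw [Finset.sum_comm, mul_comm, ← smul_eq_mul, ← Finset.sum_const]
      refine Finset.sum_le_sum fun z hz => ?_
      obtain ⟨-, -, j, hj⟩ := Finset.mem_filter.1 (hN ▸ hz)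
      have h6 : s j z ∉ H := fun h => by
        rw [hH, Finset.mem_filter] at h
        exact h.2.1 hj
      rw [Fin.sum_univ_three]
      fin_cases j <;> simp only [Fin.zero_eta, Fin.mk_one, Fin.reduceFinMk] at h6 <;>
        rw [if_neg h6] <;> split_ifs <;> omega
    have h7 := Finset.sum_le_sum (fun i (_ : i ∈ (univ : Finset (Fin 3))) => h1 i)
    rw [Finset.sum_add_distrib, Finset.sum_const, Finset.card_univ, Fintype.card_fin,
      smul_eq_mul] at h7
    unfold F
    omega
  omega

end count

end Pool.Agent.H930
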