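import Mathlib
import Pool.Agent.H930.IsoCount

set_option autoImplicit false

/-!
# Three involutions without short relations, and walks without backtracking
-/

namespace Pool.Agent.H930

open Finset

section walk
variable {V : Type} [DecidableEq V] (s : Fin 3 → V → V)

theorem next_letter (S : Finset V) (x : V) (h : 2 ≤ dg s S x) (i : Fin 3) :
    ∃ j, j ≠ i ∧ s j x ∈ S := by
  by_contra hcon
  push Not at hcon
  have h1 : dg s S x ≤ 1 := by
    unfold dg
    rw [Finset.sum_eq_single i]
    · split_ifs <;> omega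
    · intro j _ hj
      rw [if_neg (hcon j hj)]
    · intro hi
      exact absurd (Finset.mem_univ i) hi
  omega

theorem exists_walk (S : Finset V) (hS : S.Nonempty) (h : ∀ x ∈ S, 2 ≤ dg s S x) :
    ∃ (f : ℕ → V) (c : ℕ → Fin 3), (∀ t, f t ∈ S) ∧ (∀ t, f (t + 1) = s (c t) (f t)) ∧
      ∀ t, c (t + 1) ≠ c t := by
  classical
  obtain ⟨x0, hx0⟩ := hS
  have h1 : ∀ p : {x // x ∈ S} × Fin 3, ∃ j, j ≠ p.2 ∧ s j p.1.1 ∈ S := fun p =>
    next_letter s S p.1.1 (h _ p.1.2) p.2
  choose g hg1 hg2 using h1
  let nx : {x // x ∈ S} × Fin 3 → {x // x ∈ S} × Fin 3 := fun p => (⟨s (g p) p.1.1, hg2 p⟩, g p)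
  let q : ℕ → {x // x ∈ S} × Fin 3 := fun t => nx^[t] (⟨x0, hx0⟩, 0)
  have hq : ∀ t, q (t + 1) = nx (q t) := fun t => Function.iterate_succ_apply' nx t _
  refine ⟨fun t => (q t).1.1, fun t => (q (t + 1)).2, fun t => (q t).1.2, fun t => ?_, fun t => ?_⟩
  · simp only [hq]
    rfl
  · show (q (t + 1 + 1)).2 ≠ (q (t + 1)).2
    rw [hq (t + 1)]
    exact hg1 (q (t + 1))

end walk

section ball
variable (L : ℕ)

/-- words of length at most `L` without equal consecutive letters -/
abbrev B : Type := {l : List (Fin 3) // l.IsChain (· ≠ ·) ∧ l.length ≤ L}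

instance : Finite (B L) := by
  have h : {l : List (Fin 3) | l.length ≤ L}.Finite := List.finite_length_le (Fin 3) L
  exact Set.Finite.subset h (fun l hl => hl.2)

/-- the involution number `i` on lists -/
def sgl (i : Fin 3) (l : List (Fin 3)) : List (Fin 3) :=
  if l.head? = some i then l.tail else if l.length < L then i :: l else l

theorem sgl_ok (i : Fin 3) (l : List (Fin 3)) (hl : l.IsChain (· ≠ ·) ∧ l.length ≤ L) :
    (sgl L i l).IsChain (· ≠ ·) ∧ (sgl L i l).length ≤ L := by
  unfold sgl
  split_ifs with h h2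
  · refine ⟨hl.1.tail, ?_⟩
    rw [List.length_tail]
    omega
  · refine ⟨?_, by rw [List.length_cons]; omega⟩
    cases l with
    | nil => exact List.isChain_singleton i
    | cons a t =>
      simp only [List.head?_cons, Option.some.injEq] at h
      exact List.isChain_cons_cons.2 ⟨fun e => h e.symm, hl.1⟩
  · exact hl

theorem sgl_sgl (i : Fin 3) (l : List (Fin 3)) (hl : l.IsChain (· ≠ ·) ∧ l.length ≤ L) :
    sgl L i (sgl L i l) = l := by
  by_cases h : l.head? = some i
  · cases l with
    | nil => simp at h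
    | cons a t =>
      simp only [List.head?_cons, Option.some.injEq] at h
      subst h
      have e1 : sgl L a (a :: t) = t := by
        unfold sgl
        rw [if_pos (by simp)]
        rfl
      rw [e1]
      have h3 : ¬ t.head? = some a := by
        cases t with
        | nil => simp
        | cons b u =>
          simp only [List.head?_cons, Option.some.injEq]
          intro e
          exact (List.isChain_cons_cons.1 hl.1).1 e.symm
      have h4 : t.length < L := by
        have := hl.2
        rw [List.length_cons] at this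
        omega
      unfold sgl
      rw [if_neg h3, if_pos h4]
  · by_cases h2 : l.length < L
    · have e1 : sgl L i l = i :: l := by
        unfold sgl
        rw [if_neg h, if_pos h2]
      rw [e1]
      unfold sgl
      rw [if_pos (by simp)]
      rfl
    · have e1 : sgl L i l = l := by
        unfold sgl
        rw [if_neg h, if_neg h2]
      rw [e1, e1]

/-- the involution number `i` on words -/
def sg (i : Fin 3) (l : B L) : B L := ⟨sgl L i l.1, sgl_ok L i l.1 l.2⟩

theorem sg_sg (i : Fin 3) (l : B L) : sg L i (sg L i l) = l :=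
  Subtype.ext (sgl_sgl L i l.1 l.2)

theorem sg_push (i : Fin 3) (l : B L) (h : l.1.head? ≠ some i) (h2 : l.1.length < L) :
    (sg L i l).1 = i :: l.1 := by
  show sgl L i l.1 = i :: l.1
  unfold sgl
  rw [if_neg h, if_pos h2]

/-- the empty word -/
def e0 : B L := ⟨[], List.isChain_nil, Nat.zero_le _⟩

/-- the involution number `i` as a permutation -/
noncomputable def sp (i : Fin 3) : Equiv.Perm (B L) := Function.Involutive.toPerm (sg L i) (sg_sg L i)

theorem sp_sp (i : Fin 3) : sp L i * sp L i = 1 :=
  Equiv.ext fun l => sg_sg L i l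

/-- the group generated by the three involutions -/
abbrev Gam : Type := ↥(Subgroup.closure (Set.range (sp L)))

/-- the generators -/
noncomputable def gen (i : Fin 3) : Gam L := ⟨sp L i, Subgroup.subset_closure ⟨i, rfl⟩⟩

/-- left multiplication by the generators -/
noncomputable def st (i : Fin 3) (x : Gam L) : Gam L := gen L i * x

theorem st_st (i : Fin 3) (x : Gam L) : st L i (st L i x) = x := by
  unfold st
  rw [← mul_assoc]
  have : gen L i * gen L i = 1 := Subtype.ext (sp_sp L i)
  rw [this, one_mul]

/-- a walk without backtracking of length between `1` and `L` does not return -/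
theorem no_return (f : ℕ → Gam L) (c : ℕ → Fin 3) (hf : ∀ t, f (t + 1) = st L (c t) (f t))
    (hc : ∀ t, c (t + 1) ≠ c t) (a b : ℕ) (hab : a < b) (hL : b - a ≤ L) : f b ≠ f a := by
  have key : ∀ t, t ≤ L → ((f (a + t) * (f a)⁻¹ : Gam L).1 (e0 L)).1.length = t ∧
      (((f (a + t) * (f a)⁻¹ : Gam L).1 (e0 L)).1.head? = some (c (a + t)) → False) := by
    intro t
    induction t with
    | zero =>
      intro _
      rw [Nat.add_zero, mul_inv_cancel]
      refine ⟨rfl, fun h => ?_⟩
      have h' : (none : Option (Fin 3)) = some (c a) := h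
      exact absurd h' (by simp)
    | succ t ih =>
      intro ht
      obtain ⟨h1, h2⟩ := ih (by omega)
      have e1 : (f (a + (t + 1)) * (f a)⁻¹ : Gam L).1 (e0 L) =
          sg L (c (a + t)) ((f (a + t) * (f a)⁻¹ : Gam L).1 (e0 L)) := by
        have e2 : f (a + (t + 1)) * (f a)⁻¹ = gen L (c (a + t)) * (f (a + t) * (f a)⁻¹) := by
          rw [← add_assoc, hf]
          unfold st
          rw [mul_assoc]
        rw [e2]
        rfl
      rw [e1]
      set l := (f (a + t) * (f a)⁻¹ : Gam L).1 (e0 L) with hl
      have e3 : (sg L (c (a + t)) l).1 = c (a + t) :: l.1 :=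
        sg_push L (c (a + t)) l h2 (by omega)
      rw [e3]
      refine ⟨by rw [List.length_cons, h1], ?_⟩
      rw [List.head?_cons, Option.some.injEq, ← add_assoc]
      intro e
      exact hc (a + t) e.symm
  intro he
  have h1 := (key (b - a) hL).1
  have e1 : a + (b - a) = b := by omega
  rw [e1, he, mul_inv_cancel] at h1
  have h2 : (0 : ℕ) = b - a := h1
  omega

/-- the cubic Cayley graph -/
def cay : SimpleGraph (Gam L) where
  Adj x y := x ≠ y ∧ ∃ i, y = st L i x
  symm := ⟨fun x y h => ⟨h.1.symm, by
    obtain ⟨i, hi⟩ := h.2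
    exact ⟨i, by rw [hi, st_st]⟩⟩⟩
  loopless := ⟨fun _ h => h.1 rfl⟩

theorem st_ne (hL : 1 ≤ L) (i : Fin 3) (x : Gam L) : st L i x ≠ x := by
  have h : ∃ j : Fin 3, j ≠ i := by
    fin_cases i
    · exact ⟨1, by decide⟩
    · exact ⟨0, by decide⟩
    · exact ⟨0, by decide⟩
  obtain ⟨j, hj⟩ := h
  intro he
  have he' : gen L i = 1 := by
    unfold st at he
    exact mul_eq_right.1 he
  have h1 := sg_push L i (e0 L) (by simp [e0]) (by
    show (0 : ℕ) < L
    omega)
  have h2 : sp L i = 1 := congrArg Subtype.val he'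
  have h3 : sg L i (e0 L) = e0 L := by
    have := congrArg (fun p : Equiv.Perm (B L) => p (e0 L)) h2
    exact this
  rw [h3] at h1
  simp [e0] at h1

theorem adj_st (hL : 1 ≤ L) (i : Fin 3) (x : Gam L) : (cay L).Adj x (st L i x) :=
  ⟨(st_ne L hL i x).symm, i, rfl⟩

theorem cay_connected : (cay L).Connected := by
  have h1 : ∀ g : Equiv.Perm (B L), ∀ hg : g ∈ Subgroup.closure (Set.range (sp L)),
      (cay L).Reachable 1 ⟨g, hg⟩ := by
    intro g hg
    induction hg using Subgroup.closure_induction_left with
    | one => exact SimpleGraph.Reachable.refl _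
    | mul_left x hx y hy ih =>
      obtain ⟨i, rfl⟩ := hx
      refine ih.trans ?_
      by_cases h : (⟨y, hy⟩ : Gam L) = st L i ⟨y, hy⟩
      · rw [h]
        exact SimpleGraph.Reachable.refl _
      · exact SimpleGraph.Adj.reachable ⟨h, i, rfl⟩
    | inv_mul_cancel x hx y hy ih =>
      obtain ⟨i, rfl⟩ := hx
      have e : (sp L i)⁻¹ = sp L i := inv_eq_of_mul_eq_one_left (sp_sp L i)
      have e2 : (⟨(sp L i)⁻¹ * y, by
          rw [e]; exact mul_mem (Subgroup.subset_closure ⟨i, rfl⟩) hy⟩ : Gam L) = st L i ⟨y, hy⟩ := by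
        apply Subtype.ext
        show (sp L i)⁻¹ * y = sp L i * y
        rw [e]
      refine ih.trans ?_
      by_cases h : (⟨y, hy⟩ : Gam L) = st L i ⟨y, hy⟩
      · have h3 := e2.trans h.symm
        have : (cay L).Reachable (⟨y, hy⟩ : Gam L) ⟨y, hy⟩ := SimpleGraph.Reachable.refl _
        convert this using 1
      · have : (cay L).Reachable (⟨y, hy⟩ : Gam L) (st L i ⟨y, hy⟩) :=
          SimpleGraph.Adj.reachable ⟨h, i, rfl⟩
        convert this using 1
  refine (SimpleGraph.connected_iff _).2 ⟨fun x y => ?_, ⟨1⟩⟩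
  exact (h1 x.1 x.2).symm.trans (h1 y.1 y.2)

instance : Finite (Gam L) := inferInstance
noncomputable instance : Fintype (Gam L) := Fintype.ofFinite _

end ball

end Pool.Agent.H930
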